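import Pool.Agent.Work.MP_6241b7_nash.Interface

/-! Block LST: greedy colouring from lists of different sizes. -/

set_option autoImplicit false

open Finset

namespace Pool.BU

namespace LSTAux

variable {V : Type} [Fintype V] {C : Type} [DecidableEq C]

open Classical in
/-- number of conflicts of `v` inside `W` -/
noncomputable def cf (G : SimpleGraph V) (L : V → Finset C) (W : Finset V) (v : V) : Finset V :=
  W.filter (fun u => G.Adj u v ∧ ¬ Disjoint (L u) (L v))

open Classical in
theorem exists_small (G : SimpleGraph V) (L : V → Finset C) (A : V → Finset V)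
    (h1 : ∀ u v, G.Adj u v → ¬ Disjoint (L u) (L v) → u ∈ A v ∨ v ∈ A u)
    (W : Finset V) (hW : W.Nonempty) :
    ∃ v ∈ W, (cf G L W v).card ≤ 2 * (A v).card := by
  by_contra hcon
  push Not at hcon
  have hlt : ∑ v ∈ W, 2 * (A v).card < ∑ v ∈ W, (cf G L W v).card :=
    sum_lt_sum_of_nonempty hW hcon
  have hle : ∑ v ∈ W, (cf G L W v).card ≤ ∑ v ∈ W, 2 * (A v).card := by
    have e1 : ∀ v ∈ W, (cf G L W v).card ≤
        (W.filter (fun u => u ∈ A v)).card + (W.filter (fun u => v ∈ A u)).card := by
      intro v _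
      refine le_trans (card_le_card ?_) (card_union_le _ _)
      intro u hu
      unfold cf at hu
      rw [mem_filter] at hu
      rw [mem_union, mem_filter, mem_filter]
      rcases h1 u v hu.2.1 hu.2.2 with h | h
      · exact Or.inl ⟨hu.1, h⟩
      · exact Or.inr ⟨hu.1, h⟩
    have e2 : ∑ v ∈ W, (W.filter (fun u => v ∈ A u)).card =
        ∑ v ∈ W, (W.filter (fun u => u ∈ A v)).card := by
      have a1 : ∀ v ∈ W, (W.filter (fun u => v ∈ A u)).card = ∑ u ∈ W, if v ∈ A u then 1 else 0 := by
        intro v _; rw [card_filter]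
      have a2 : ∀ v ∈ W, (W.filter (fun u => u ∈ A v)).card = ∑ u ∈ W, if u ∈ A v then 1 else 0 := by
        intro v _; rw [card_filter]
      rw [sum_congr rfl a1, sum_congr rfl a2, sum_comm]
    have e3 : ∑ v ∈ W, (W.filter (fun u => u ∈ A v)).card ≤ ∑ v ∈ W, (A v).card := by
      refine sum_le_sum (fun v _ => card_le_card ?_)
      intro u hu
      exact (mem_filter.1 hu).2
    calc ∑ v ∈ W, (cf G L W v).card
        ≤ ∑ v ∈ W, ((W.filter (fun u => u ∈ A v)).card + (W.filter (fun u => v ∈ A u)).card) :=
          sum_le_sum e1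
      _ = ∑ v ∈ W, (W.filter (fun u => u ∈ A v)).card + ∑ v ∈ W, (W.filter (fun u => u ∈ A v)).card := by
          rw [sum_add_distrib, e2]
      _ ≤ ∑ v ∈ W, (A v).card + ∑ v ∈ W, (A v).card := add_le_add e3 e3
      _ = ∑ v ∈ W, 2 * (A v).card := by
          rw [← sum_add_distrib]; exact sum_congr rfl (fun v _ => by ring)
  omega

open Classical in
theorem main (G : SimpleGraph V) (L : V → Finset C) (A : V → Finset V)
    (h1 : ∀ u v, G.Adj u v → ¬ Disjoint (L u) (L v) → u ∈ A v ∨ v ∈ A u)
    (h2 : ∀ v, 2 * (A v).card < (L v).card) (k : ℕ) :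
    ∀ W : Finset V, W.card = k →
      ∃ c : V → C, (∀ v, c v ∈ L v) ∧ ∀ u ∈ W, ∀ v ∈ W, G.Adj u v → c u ≠ c v := by
  induction k with
  | zero =>
    intro W hW
    have hne : ∀ v, (L v).Nonempty := fun v => card_pos.1 (lt_of_le_of_lt (Nat.zero_le _) (h2 v))
    choose c hc using hne
    refine ⟨c, hc, ?_⟩
    rw [card_eq_zero] at hW
    subst hW
    intro u hu
    exact absurd hu (notMem_empty u)
  | succ k ih =>
    intro W hW
    have hWn : W.Nonempty := by rw [← card_pos, hW]; omega
    obtain ⟨v, hv, hcf⟩ := exists_small G L A h1 W hWn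
    obtain ⟨c, hc, hp⟩ := ih (W.erase v) (by rw [card_erase_of_mem hv, hW]; rfl)
    have hlt : ((cf G L W v).image c).card < (L v).card :=
      lt_of_le_of_lt card_image_le (lt_of_le_of_lt hcf (h2 v))
    obtain ⟨a, haL, ha⟩ := exists_mem_notMem_of_card_lt_card hlt
    have key : ∀ u ∈ W, G.Adj u v → c u ≠ a := by
      intro u hu huv hca
      by_cases hd : Disjoint (L u) (L v)
      · exact (disjoint_left.1 hd) (hc u) (hca ▸ haL)
      · apply ha
        rw [mem_image]
        refine ⟨u, ?_, hca⟩
        unfold cf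
        rw [mem_filter]
        exact ⟨hu, huv, hd⟩
    refine ⟨Function.update c v a, ?_, ?_⟩
    · intro w
      by_cases hw : w = v
      · subst hw; rw [Function.update_self]; exact haL
      · rw [Function.update_of_ne hw]; exact hc w
    · intro u hu w hw huw
      by_cases h3 : u = v
      · subst h3
        have hwu : w ≠ u := fun h => by subst h; exact G.loopless.irrefl _ huw
        rw [Function.update_self, Function.update_of_ne hwu]
        exact (key w hw huw.symm).symm
      · by_cases h4 : w = v
        · subst h4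
          rw [Function.update_self, Function.update_of_ne h3]
          exact key u hu huw
        · rw [Function.update_of_ne h3, Function.update_of_ne h4]
          exact hp u (mem_erase.2 ⟨h3, hu⟩) w (mem_erase.2 ⟨h4, hw⟩) huw

end LSTAux

theorem stmt_LST : Stmt_LST := by
  intro V _ C _ G L A h1 h2
  obtain ⟨c, hc, hp⟩ := LSTAux.main G L A h1 h2 _ Finset.univ rfl
  exact ⟨c, hc, fun u v huv => hp u (mem_univ u) v (mem_univ v) huv⟩

end Pool.BU
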