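import Pool.Agent.Work.MP_6241b7_nash.Interface
import Pool.Agent.Work.Brouwer70.Brouwer

/-!
# Block NEQ: existence of a mixed equilibrium for continuous payoffs
-/

set_option autoImplicit false

open Finset

namespace Pool.BU

namespace NEQ

variable {ι S : Type} [Fintype S]

/-- the mixed strategy profiles -/
def K (ι S : Type) [Fintype S] : Set (ι → S → ℝ) :=
  {P | (∀ i s, 0 ≤ P i s) ∧ ∀ i, ∑ s, P i s = 1}

/-- the average payoff -/
def avg (F : (ι → S → ℝ) → ι → S → ℝ) (P : ι → S → ℝ) (i : ι) : ℝ := ∑ t, P i t * F P i t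

/-- the gain -/
def g (F : (ι → S → ℝ) → ι → S → ℝ) (P : ι → S → ℝ) (i : ι) (s : S) : ℝ :=
  max 0 (F P i s - avg F P i)

/-- the Nash map -/
noncomputable def nash (F : (ι → S → ℝ) → ι → S → ℝ) (P : ι → S → ℝ) : ι → S → ℝ :=
  fun i s => (P i s + g F P i s) / (1 + ∑ t, g F P i t)

theorem g_nonneg (F : (ι → S → ℝ) → ι → S → ℝ) (P : ι → S → ℝ) (i : ι) (s : S) :
    0 ≤ g F P i s := le_max_left _ _

theorem den_pos (F : (ι → S → ℝ) → ι → S → ℝ) (P : ι → S → ℝ) (i : ι) :
    0 < 1 + ∑ t, g F P i t := by
  have : 0 ≤ ∑ t, g F P i t := Finset.sum_nonneg fun t _ => g_nonneg F P i t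
  linarith

theorem maps (F : (ι → S → ℝ) → ι → S → ℝ) : Set.MapsTo (nash F) (K ι S) (K ι S) := by
  intro P hP
  refine ⟨fun i s => ?_, fun i => ?_⟩
  · exact div_nonneg (add_nonneg (hP.1 i s) (g_nonneg F P i s)) (den_pos F P i).le
  · unfold nash
    rw [← Finset.sum_div, Finset.sum_add_distrib, hP.2 i]
    exact div_self (den_pos F P i).ne'

theorem cont {F : (ι → S → ℝ) → ι → S → ℝ} (hF : Continuous F) : Continuous (nash F) := by
  have h1 : ∀ i s, Continuous fun P : ι → S → ℝ => F P i s := fun i s =>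
    (continuous_apply s).comp ((continuous_apply i).comp hF)
  have h0 : ∀ i s, Continuous fun P : ι → S → ℝ => P i s := fun i s =>
    (continuous_apply s).comp (continuous_apply i)
  have h2 : ∀ i, Continuous fun P : ι → S → ℝ => avg F P i := fun i =>
    continuous_finsetSum _ fun t _ => (h0 i t).mul (h1 i t)
  have h3 : ∀ i s, Continuous fun P : ι → S → ℝ => g F P i s := fun i s =>
    continuous_const.max ((h1 i s).sub (h2 i))
  refine continuous_pi fun i => continuous_pi fun s => ?_
  exact ((h0 i s).add (h3 i s)).div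
    (continuous_const.add (continuous_finsetSum _ fun t _ => h3 i t))
    fun P => (den_pos F P i).ne'

theorem convex_K : Convex ℝ (K ι S) := by
  intro P hP Q hQ a b ha hb hab
  refine ⟨fun i s => ?_, fun i => ?_⟩
  · exact add_nonneg (mul_nonneg ha (hP.1 i s)) (mul_nonneg hb (hQ.1 i s))
  · have : ∀ s, (a • P + b • Q) i s = a * P i s + b * Q i s := fun s => rfl
    simp_rw [this]
    rw [Finset.sum_add_distrib, ← Finset.mul_sum, ← Finset.mul_sum, hP.2 i, hQ.2 i]
    linarith

theorem compact_K : IsCompact (K ι S) := by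
  have hc : IsClosed (K ι S) := by
    have : K ι S = (⋂ i, ⋂ s, {P : ι → S → ℝ | 0 ≤ P i s}) ∩
        ⋂ i, {P : ι → S → ℝ | ∑ s, P i s = 1} := by
      ext P
      simp [K]
    rw [this]
    refine IsClosed.inter ?_ ?_
    · refine isClosed_iInter fun i => isClosed_iInter fun s => ?_
      exact isClosed_le continuous_const ((continuous_apply s).comp (continuous_apply i))
    · refine isClosed_iInter fun i => ?_
      exact isClosed_eq (continuous_finsetSum _ fun t _ =>
        (continuous_apply t).comp (continuous_apply i)) continuous_const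
  have hsub : K ι S ⊆ Set.Icc (fun _ _ => 0) (fun _ _ => 1) := by
    intro P hP
    refine ⟨fun i s => hP.1 i s, fun i s => ?_⟩
    rw [← hP.2 i]
    exact Finset.single_le_sum (f := fun s => P i s) (fun t _ => hP.1 i t) (Finset.mem_univ s)
  exact isCompact_Icc.of_isClosed_subset hc hsub

theorem nonempty_K [Nonempty S] : (K ι S).Nonempty := by
  classical
  obtain ⟨s₀⟩ := ‹Nonempty S›
  refine ⟨fun _ s => if s = s₀ then 1 else 0, fun i s => ?_, fun i => ?_⟩
  · show (0 : ℝ) ≤ if s = s₀ then 1 else 0
    split_ifs <;> norm_num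
  · simp

end NEQ

open NEQ in
theorem stmt_NEQ : Stmt_NEQ := by
  intro ι _ S _ _ F hF
  obtain ⟨P, hP, hfix⟩ := Pool.Agent.Work.Brouwer70.brouwer_convex (K ι S) nonempty_K compact_K
    convex_K (nash F) (cont hF).continuousOn (maps F)
  refine ⟨P, hP.1, hP.2, fun i s hs t => ?_⟩
  have h1 : ∀ s, P i s * ∑ t, g F P i t = g F P i s := by
    intro s
    have h2 : (P i s + g F P i s) / (1 + ∑ t, g F P i t) = P i s := congrFun (congrFun hfix i) s
    rw [div_eq_iff (den_pos F P i).ne'] at h2
    linarith
  -- some strategy in the support is not better than the average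
  have h3 : ∃ s, 0 < P i s ∧ F P i s ≤ avg F P i := by
    by_contra hc
    push Not at hc
    have h4 : ∑ s, P i s * avg F P i < ∑ s, P i s * F P i s := by
      apply Finset.sum_lt_sum
      · intro s _
        rcases (hP.1 i s).eq_or_lt with h | h
        · rw [← h]; simp
        · exact mul_le_mul_of_nonneg_left (hc s h).le h.le
      · exact ⟨s, Finset.mem_univ s, mul_lt_mul_of_pos_left (hc s hs) hs⟩
    rw [← Finset.sum_mul, hP.2 i, one_mul] at h4
    exact lt_irrefl _ h4
  obtain ⟨s₁, hs₁, hs₁'⟩ := h3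
  have h5 : g F P i s₁ = 0 := max_eq_left (by linarith)
  have h6 : ∑ t, g F P i t = 0 := by
    have := h1 s₁
    rw [h5] at this
    rcases mul_eq_zero.1 this with h | h
    · exact absurd h hs₁.ne'
    · exact h
  have h7 : ∀ t, F P i t ≤ avg F P i := by
    intro t
    have h8 := h1 t
    rw [h6, mul_zero] at h8
    have h9 : F P i t - avg F P i ≤ g F P i t := le_max_right _ _
    linarith
  -- strategies in the support give the average
  have h10 : ∑ s, P i s * (avg F P i - F P i s) = 0 := by
    simp_rw [mul_sub]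
    rw [Finset.sum_sub_distrib, ← Finset.sum_mul, hP.2 i, one_mul]
    exact sub_self _
  have h11 := (Finset.sum_eq_zero_iff_of_nonneg (fun s _ =>
    mul_nonneg (hP.1 i s) (sub_nonneg.2 (h7 s)))).1 h10 s (Finset.mem_univ s)
  rcases mul_eq_zero.1 h11 with h | h
  · exact absurd h hs.ne'
  · have := h7 t
    linarith

end Pool.BU
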