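import Pool.Agent.Work.MP_6241b7_nash.Interface

/-!
# Block EMB: embedding a rooted tree
-/

set_option autoImplicit false

open Finset

namespace Pool.BU

namespace EMB

variable {V : Type} {N : Bool → V → Finset V} {M : ℕ} {p : V → ℕ → ℝ}
  {Z : Bool → V → Set ℕ}

/-- the mass of the used vertices at the levels `≥ y` -/
def U {k : ℕ} (p : V → ℕ → ℝ) (M : ℕ) (f : Fin (k + 1) → V) (S : Finset (Fin (k + 1))) (y : ℕ) : ℝ :=
  ∑ x ∈ S, ∑ w ∈ Ico y (M + 1), p (f x) w

theorem key (H : Levels N M p Z) {k : ℕ} {f : Fin (k + 1) → V} {S : Finset (Fin (k + 1))}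
    [DecidableEq V] (inj : Set.InjOn f S) {ζ y : ℕ} (hζ : ζ ≤ M) (hy : y ≤ ζ) (A : Finset V)
    (hA : ∀ u ∈ A, u ∉ S.image f → ∀ w ∈ Ico y ζ, p u w = 0) :
    ∑ u ∈ A, ∑ w ∈ Ico y ζ, p u w ≤ U p M f S y - U p M f S ζ := by
  have h1 : ∑ u ∈ A, ∑ w ∈ Ico y ζ, p u w = ∑ u ∈ A ∩ S.image f, ∑ w ∈ Ico y ζ, p u w := by
    symm
    apply Finset.sum_subset Finset.inter_subset_left
    intro u hu hu'
    have : u ∉ S.image f := fun h => hu' (Finset.mem_inter.2 ⟨hu, h⟩)
    exact Finset.sum_eq_zero fun w hw => hA u hu this w hw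
  have h2 : ∑ u ∈ A ∩ S.image f, ∑ w ∈ Ico y ζ, p u w ≤ ∑ u ∈ S.image f, ∑ w ∈ Ico y ζ, p u w := by
    apply Finset.sum_le_sum_of_subset_of_nonneg Finset.inter_subset_right
    intro u _ _
    exact Finset.sum_nonneg fun w _ => H.nonneg u w
  have h3 : ∑ u ∈ S.image f, ∑ w ∈ Ico y ζ, p u w = ∑ x ∈ S, ∑ w ∈ Ico y ζ, p (f x) w :=
    Finset.sum_image inj
  have h4 : U p M f S y - U p M f S ζ = ∑ x ∈ S, ∑ w ∈ Ico y ζ, p (f x) w := by
    unfold U
    rw [← Finset.sum_sub_distrib]
    refine Finset.sum_congr rfl fun x _ => ?_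
    rw [← Finset.sum_Ico_consecutive (fun w => p (f x) w) hy (by omega : ζ ≤ M + 1)]
    ring
  linarith

/-- the state of the embedding -/
structure St {k : ℕ} (N : Bool → V → Finset V) (M : ℕ) (p : V → ℕ → ℝ) (z : ℕ)
    (r : Fin (k + 1)) (par : Fin (k + 1) → Fin (k + 1)) (τ : Fin (k + 1) → Bool)
    (S : Finset (Fin (k + 1))) (f : Fin (k + 1) → V) (ℓ : Fin (k + 1) → ℕ) : Prop where
  hr : r ∈ S
  cl : ∀ x ∈ S, x ≠ r → par x ∈ S
  inj : Set.InjOn f S
  arc : ∀ x ∈ S, x ≠ r → f x ∈ N (τ x) (f (par x))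
  pos : ∀ x ∈ S, 0 < p (f x) (ℓ x)
  inv : ∀ x ∈ S, ∀ y, ℓ x ≤ y → (z : ℝ) - ((S.card : ℝ) - 1) ≤ y + 2 * U p M f S y

theorem U_anti (H : Levels N M p Z) {k : ℕ} (f : Fin (k + 1) → V) (S : Finset (Fin (k + 1)))
    {y y' : ℕ} (h : y ≤ y') : U p M f S y' ≤ U p M f S y := by
  unfold U
  refine Finset.sum_le_sum fun x _ => ?_
  apply Finset.sum_le_sum_of_subset_of_nonneg
  · exact Finset.Ico_subset_Ico h le_rfl
  · intro w _ _
    exact H.nonneg _ _

theorem U_nonneg (H : Levels N M p Z) {k : ℕ} (f : Fin (k + 1) → V) (S : Finset (Fin (k + 1)))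
    (y : ℕ) : 0 ≤ U p M f S y :=
  Finset.sum_nonneg fun _ _ => Finset.sum_nonneg fun _ _ => H.nonneg _ _

theorem U_zero (H : Levels N M p Z) {k : ℕ} (f : Fin (k + 1) → V) (S : Finset (Fin (k + 1))) :
    U p M f S 0 = S.card := by
  unfold U
  rw [← Finset.range_eq_Ico, Finset.sum_congr rfl fun x _ => H.total (f x)]
  simp

theorem step (H : Levels N M p Z) {k : ℕ} {r : Fin (k + 1)} {par : Fin (k + 1) → Fin (k + 1)}
    {κ : Fin (k + 1) → ℕ} {τ : Fin (k + 1) → Bool} (hκ : ∀ x, x ≠ r → κ (par x) < κ x)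
    {z : ℕ} (hz : 3 * k ≤ z) {S : Finset (Fin (k + 1))} {f : Fin (k + 1) → V}
    {ℓ : Fin (k + 1) → ℕ} (h : St N M p z r par τ S f ℓ) (hS : S.card ≤ k) :
    ∃ (S' : Finset (Fin (k + 1))) (f' : Fin (k + 1) → V) (ℓ' : Fin (k + 1) → ℕ),
      S'.card = S.card + 1 ∧ St N M p z r par τ S' f' ℓ' := by
  classical
  -- the next vertex of the tree
  have hne : (Sᶜ).Nonempty := by
    rw [← Finset.card_pos, Finset.card_compl, Fintype.card_fin]
    omega
  obtain ⟨x, hx, hmin⟩ := Finset.exists_min_image Sᶜ κ hne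
  rw [Finset.mem_compl] at hx
  have hxr : x ≠ r := fun e => hx (e ▸ h.hr)
  have hj : par x ∈ S := by
    by_contra hc
    have := hmin (par x) (Finset.mem_compl.2 hc)
    have := hκ x hxr
    omega
  obtain ⟨ζ, hζZ, hζ⟩ := H.lev (f (par x)) (ℓ (par x)) (h.pos _ hj) (τ x)
  have hζM := H.le _ _ ζ hζZ
  set A := N (τ x) (f (par x)) with hA
  set C : Finset (V × ℕ) := ((A.filter fun u => u ∉ S.image f) ×ˢ range ζ).filter
    fun c => 0 < p c.1 c.2 with hC
  have hcard1 : 1 ≤ S.card := Finset.card_pos.2 ⟨r, h.hr⟩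
  have hnot : ∀ u ∈ A, u ∉ S.image f → ∀ w, w < ζ → (u, w) ∉ C → p u w = 0 := by
    intro u hu hu' w hw hc
    by_contra h0
    apply hc
    rw [hC, Finset.mem_filter, Finset.mem_product, Finset.mem_filter, Finset.mem_range]
    exact ⟨⟨⟨hu, hu'⟩, hw⟩, lt_of_le_of_ne (H.nonneg u w) (Ne.symm h0)⟩
  rcases Finset.eq_empty_or_nonempty C with hCe | hCn
  · exfalso
    have h1 := H.below _ _ ζ hζZ 0 (Nat.zero_le _)
    have h2 := key H h.inj hζM (Nat.zero_le ζ) A (by
      intro u hu hu' w hw
      rw [Finset.mem_Ico] at hw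
      exact hnot u hu hu' w hw.2 (by rw [hCe]; simp))
    have h3 := h.inv _ hj ζ hζ
    rw [U_zero H] at h2
    have h4 : (S.card : ℝ) ≤ k := by exact_mod_cast hS
    have h5 : (3 * k : ℝ) ≤ z := by exact_mod_cast hz
    push_cast at h1
    linarith
  · obtain ⟨⟨u, w⟩, huw, hmax⟩ := Finset.exists_max_image C Prod.snd hCn
    have huw' := huw
    rw [hC, Finset.mem_filter, Finset.mem_product, Finset.mem_filter, Finset.mem_range] at huw'
    obtain ⟨⟨⟨huA, huS⟩, hwζ⟩, hpos⟩ := huw'
    simp only at huA huS hwζ hpos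
    -- the invariant above `w`
    have habove : ∀ y, w < y → (z : ℝ) - ((S.card : ℝ) - 1) ≤ y + 2 * U p M f S y := by
      intro y hy
      rcases le_or_gt ζ y with hyζ | hyζ
      · exact h.inv _ hj y (by omega)
      · have h1 := H.below _ _ ζ hζZ y hyζ.le
        have h2 := key H h.inj hζM hyζ.le A (by
          intro u' hu hu' w' hw'
          rw [Finset.mem_Ico] at hw'
          refine hnot u' hu hu' w' hw'.2 ?_
          intro hc
          have := hmax _ hc
          simp only at this
          omega)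
        have h3 := h.inv _ hj ζ hζ
        linarith
    have hins : (insert x S).card = S.card + 1 := Finset.card_insert_of_notMem hx
    have hupd : ∀ y ∈ S, Function.update f x u y = f y := by
      intro y hy
      apply Function.update_of_ne
      rintro rfl
      exact hx hy
    have hupdℓ : ∀ y ∈ S, Function.update ℓ x w y = ℓ y := by
      intro y hy
      apply Function.update_of_ne
      rintro rfl
      exact hx hy
    have hU : ∀ y, U p M f S y ≤ U p M (Function.update f x u) (insert x S) y := by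
      intro y
      unfold U
      rw [Finset.sum_insert hx]
      have h1 : ∑ x' ∈ S, ∑ w ∈ Ico y (M + 1), p (Function.update f x u x') w =
          ∑ x' ∈ S, ∑ w ∈ Ico y (M + 1), p (f x') w :=
        Finset.sum_congr rfl fun x' hx' => by rw [hupd x' hx']
      rw [h1]
      have h2 : 0 ≤ ∑ w ∈ Ico y (M + 1), p (Function.update f x u x) w :=
        Finset.sum_nonneg fun _ _ => H.nonneg _ _
      linarith
    refine ⟨insert x S, Function.update f x u, Function.update ℓ x w, hins, ?_, ?_, ?_, ?_, ?_, ?_⟩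
    · exact Finset.mem_insert_of_mem h.hr
    · intro y hy hyr
      rcases Finset.mem_insert.1 hy with rfl | hy
      · exact Finset.mem_insert_of_mem hj
      · exact Finset.mem_insert_of_mem (h.cl y hy hyr)
    · intro a ha b hb hab
      rw [Finset.coe_insert, Set.mem_insert_iff, Finset.mem_coe] at ha hb
      rcases ha with rfl | ha <;> rcases hb with rfl | hb
      · rfl
      · exfalso
        rw [Function.update_self, hupd b hb] at hab
        exact huS (Finset.mem_image.2 ⟨b, hb, hab.symm⟩)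
      · exfalso
        rw [Function.update_self, hupd a ha] at hab
        exact huS (Finset.mem_image.2 ⟨a, ha, hab⟩)
      · rw [hupd a ha, hupd b hb] at hab
        exact h.inj ha hb hab
    · intro y hy hyr
      rcases Finset.mem_insert.1 hy with rfl | hy
      · rw [Function.update_self, hupd _ hj]
        exact huA
      · rw [hupd y hy, hupd _ (h.cl y hy hyr)]
        exact h.arc y hy hyr
    · intro y hy
      rcases Finset.mem_insert.1 hy with rfl | hy
      · rw [Function.update_self, Function.update_self]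
        exact hpos
      · rw [hupd y hy, hupdℓ y hy]
        exact h.pos y hy
    · intro y hy v hv
      have hUv := hU v
      rw [hins]
      push_cast
      rcases Finset.mem_insert.1 hy with rfl | hy
      · rw [Function.update_self] at hv
        rcases Nat.lt_or_ge w v with hlt | hge
        · have := habove v hlt
          linarith
        · have hvw : v = w := by omega
          have h1 := habove (w + 1) (by omega)
          have h2 := U_anti H f S (by omega : w ≤ w + 1)
          rw [hvw] at hUv ⊢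
          push_cast at h1
          linarith
      · rw [hupdℓ y hy] at hv
        have := h.inv y hy v hv
        linarith

end EMB

open EMB in
theorem stmt_EMB : Stmt_EMB := by
  intro V _ N M p Z H k r par κ τ hκ v z hpz hz
  classical
  have hzM : z ≤ M := by
    by_contra hc
    rw [H.zero v z (by omega)] at hpz
    exact lt_irrefl _ hpz
  have key : ∀ n, n ≤ k → ∃ (S : Finset (Fin (k + 1))) (f : Fin (k + 1) → V)
      (ℓ : Fin (k + 1) → ℕ), S.card = n + 1 ∧ St N M p z r par τ S f ℓ := by
    intro n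
    induction n with
    | zero =>
      intro _
      refine ⟨{r}, fun _ => v, fun _ => z, by simp, ?_, ?_, ?_, ?_, ?_, ?_⟩
      · simp
      · intro x hx hxr
        exact absurd (Finset.mem_singleton.1 hx) hxr
      · simp
      · intro x hx hxr
        exact absurd (Finset.mem_singleton.1 hx) hxr
      · intro x _
        exact hpz
      · intro x _ y hy
        have h1 := U_nonneg H (fun _ : Fin (k + 1) => v) {r} y
        have h2 : (z : ℝ) ≤ y := by exact_mod_cast hy
        simp only [Finset.card_singleton, Nat.cast_one]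
        linarith
    | succ n ih =>
      intro hn
      obtain ⟨S, f, ℓ, hc, hst⟩ := ih (by omega)
      obtain ⟨S', f', ℓ', hc', hst'⟩ := step H hκ hz hst (by omega)
      exact ⟨S', f', ℓ', by omega, hst'⟩
  obtain ⟨S, f, ℓ, hc, hst⟩ := key k le_rfl
  have hS : S = univ := by
    rw [← Finset.card_eq_iff_eq_univ, hc, Fintype.card_fin]
  subst hS
  refine ⟨f, ?_, fun x hx => hst.arc x (Finset.mem_univ _) hx⟩
  intro a b hab
  exact hst.inj (by simp) (by simp) hab

end Pool.BU
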