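import Mathlib

/-!
# Burr's conjecture up to a factor log: statements of the blocks (MP_6241b7_co), version 2

`N true v` = out-neighbours of `v`, `N false v` = in-neighbours of `v`.
Paper proof: BLUEPRINT.md in this directory.
-/

set_option autoImplicit false

open Finset

namespace Pool.BU

/-- A mixed equilibrium in abstract form. `p v` is the law of the level at which `v` is seen,
`Z σ v` the set of levels which are best possible for `v` with respect to its neighbours of sign `σ`. -/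
structure Levels {V : Type} (N : Bool → V → Finset V) (M : ℕ) (p : V → ℕ → ℝ)
    (Z : Bool → V → Set ℕ) : Prop where
  nonneg : ∀ v x, 0 ≤ p v x
  total : ∀ v, ∑ x ∈ range (M + 1), p v x = 1
  zero : ∀ v x, M < x → p v x = 0
  le : ∀ σ v, ∀ z ∈ Z σ v, z ≤ M
  lev : ∀ v x, 0 < p v x → ∀ σ, ∃ z ∈ Z σ v, x ≤ z
  near : ∀ v, ∃ (σ : Bool) (a x : ℕ), a ∈ Z σ v ∧ a ≤ x ∧ p v x + p v (x + 1) = 1
  below : ∀ σ v, ∀ z ∈ Z σ v, ∀ x ≤ z,
    ((z : ℝ) - x) / 2 ≤ ∑ u ∈ N σ v, ∑ y ∈ Ico x z, p u y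
  above : ∀ σ v, ∀ z ∈ Z σ v, ∀ y, z ≤ y → y ≤ M →
    ∑ u ∈ N σ v, ∑ x ∈ Ico z y, p u x ≤ ((y : ℝ) - z) / 2

/-- NEQ: a Nash type theorem for continuous payoffs (from Brouwer:
`Pool.Agent.Work.Brouwer70.brouwer_convex`) -/
def Stmt_NEQ : Prop :=
  ∀ (ι : Type) [Fintype ι] (S : Type) [Fintype S] [Nonempty S] (F : (ι → S → ℝ) → ι → S → ℝ),
    Continuous F → ∃ P : ι → S → ℝ, (∀ i s, 0 ≤ P i s) ∧ (∀ i, ∑ s, P i s = 1) ∧
      ∀ i s, 0 < P i s → ∀ t, F P i t ≤ F P i s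

/-- LEV: existence of the levels (from NEQ, with `ι = V × Bool`, `S = Fin (M + 1)`) -/
def Stmt_LEV : Prop :=
  ∀ (V : Type) [Fintype V] (N : Bool → V → Finset V) (M : ℕ),
    ∃ (p : V → ℕ → ℝ) (Z : Bool → V → Set ℕ), Levels N M p Z

/-- EMB: a rooted tree with `k` edges is found if some vertex is seen at a level `≥ 3 k` -/
def Stmt_EMB : Prop :=
  ∀ (V : Type) [Fintype V] (N : Bool → V → Finset V) (M : ℕ) (p : V → ℕ → ℝ)
    (Z : Bool → V → Set ℕ), Levels N M p Z →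
    ∀ (k : ℕ) (r : Fin (k + 1)) (par : Fin (k + 1) → Fin (k + 1)) (κ : Fin (k + 1) → ℕ)
      (τ : Fin (k + 1) → Bool), (∀ x, x ≠ r → κ (par x) < κ x) →
    ∀ (v : V) (z : ℕ), 0 < p v z → 3 * k ≤ z →
    ∃ f : Fin (k + 1) → V, Function.Injective f ∧ ∀ x, x ≠ r → f x ∈ N (τ x) (f (par x))

/-- LST: greedy colouring from lists of different sizes: `c v` bounds the number of conflicts
which are charged to `v` -/
def Stmt_LST : Prop :=
  ∀ (V : Type) [Fintype V] (C : Type) [DecidableEq C] (G : SimpleGraph V) (L : V → Finset C)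
    (A : V → Finset V),
    (∀ u v, G.Adj u v → ¬ Disjoint (L u) (L v) → u ∈ A v ∨ v ∈ A u) →
    (∀ v, 2 * (A v).card < (L v).card) →
    ∃ c : V → C, (∀ v, c v ∈ L v) ∧ ∀ u v, G.Adj u v → c u ≠ c v

/-- RND: rounding (from LST) -/
def Stmt_RND : Prop :=
  ∀ (V : Type) [Fintype V] (G : SimpleGraph V) (N : Bool → V → Finset V),
    (∀ u v, G.Adj u v → ∀ σ, u ∈ N σ v ∨ v ∈ N σ u) →
    ∀ (M : ℕ) (p : V → ℕ → ℝ) (Z : Bool → V → Set ℕ), Levels N M p Z →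
    ∀ (b m s : ℕ), 2 ≤ b → m ≤ b ^ s → (b + 2) * m ≤ M → (∀ v x, m ≤ x → p v x = 0) →
    G.Colorable (2 * (s + 1) * m * (b + 2))

/-- MAIN -/
def Stmt_MAIN : Prop :=
  ∀ (k n : ℕ), 1 ≤ k → ∀ (D : Fin n → Fin n → Prop), (∀ x, ¬ D x x) →
    ∀ (T : Fin (k + 1) → Fin (k + 1) → Prop), (∀ a b, T a b → ¬ T b a) →
    (SimpleGraph.fromRel T).IsTree →
    ∀ b s : ℕ, 2 ≤ b → 3 * k ≤ b ^ s →
    ((6 * k * (s + 1) * (b + 2) : ℕ) : ℕ∞) < (SimpleGraph.fromRel D).chromaticNumber →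
    ∃ f : Fin (k + 1) → Fin n, Function.Injective f ∧ ∀ x y, T x y → D (f x) (f y)

end Pool.BU
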