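import Pool.Agent.Work.MP_6241b7_nash.Interface
import Pool.Agent.Work.MP_6241b7_lin.Tree

/-!
# Block MAIN: assembly
-/

set_option autoImplicit false

open Finset

namespace Pool.BU

open Pool.Agent.Work.MP_6241b7_lin in
theorem stmt_MAIN (hLEV : Stmt_LEV) (hEMB : Stmt_EMB) (hRND : Stmt_RND) : Stmt_MAIN := by
  intro k n hk D hD T hTas hT b s hb hs hχ
  classical
  set N : Bool → Fin n → Finset (Fin n) := fun σ v =>
    if σ then univ.filter (fun u => D v u) else univ.filter (fun u => D u v) with hN
  have hNt : ∀ v u, u ∈ N true v ↔ D v u := by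
    intro v u
    simp [hN]
  have hNf : ∀ v u, u ∈ N false v ↔ D u v := by
    intro v u
    simp [hN]
  obtain ⟨p, Z, H⟩ := hLEV (Fin n) N ((b + 2) * (3 * k))
  by_cases hex : ∃ v z, 0 < p v z ∧ 3 * k ≤ z
  · obtain ⟨v, z, hpz, hz⟩ := hex
    obtain ⟨m, par, κ, hR, -, hadj⟩ := tree_data hT hk 0
    obtain ⟨f, hf, harc⟩ := hEMB (Fin n) N ((b + 2) * (3 * k)) p Z H k 0 par κ (sg T par) hR.lt v z hpz hz
    refine ⟨f, hf, ?_⟩
    intro a b hab
    have hne : a ≠ b := by
      rintro rfl
      exact hTas _ _ hab hab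
    rcases hadj a b ((SimpleGraph.fromRel_adj _ _ _).2 ⟨hne, Or.inl hab⟩) with ⟨h1, h2⟩ | ⟨h1, h2⟩
    · have h3 := harc a h1
      have h4 : sg T par a = false := by
        unfold sg
        rw [← h2]
        exact decide_eq_false (hTas _ _ hab)
      rw [h4, ← h2] at h3
      exact (hNf _ _).1 h3
    · have h3 := harc b h1
      have h4 : sg T par b = true := by
        unfold sg
        rw [← h2]
        exact decide_eq_true hab
      rw [h4, ← h2] at h3
      exact (hNt _ _).1 h3
  · exfalso
    push Not at hex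
    have hcol := hRND (Fin n) (SimpleGraph.fromRel D) N (by
      intro u v huv σ
      rw [SimpleGraph.fromRel_adj] at huv
      cases σ
      · rcases huv.2 with h | h
        · exact Or.inl ((hNf _ _).2 h)
        · exact Or.inr ((hNf _ _).2 h)
      · rcases huv.2 with h | h
        · exact Or.inr ((hNt _ _).2 h)
        · exact Or.inl ((hNt _ _).2 h)) ((b + 2) * (3 * k)) p Z H b (3 * k) s hb hs le_rfl (by
      intro v x hx
      by_contra h0
      have h1 : 0 < p v x := lt_of_le_of_ne (H.nonneg v x) (Ne.symm h0)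
      have := hex v x h1
      omega)
    have h1 := hcol.chromaticNumber_le
    have h2 : 2 * (s + 1) * (3 * k) * (b + 2) = 6 * k * (s + 1) * (b + 2) := by ring
    rw [h2] at h1
    exact absurd h1 (not_le.2 hχ)

end Pool.BU
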