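import Pool.Agent.Work.MP_6241b7_nash.Interface

/-!
# Block RND of MP_6241b7_nash: rounding, version 2 (helper79)
-/

set_option autoImplicit false

open Finset

namespace Pool.BU

/-- sign, best level, scale and visible level of a vertex -/
private lemma vertex_data {V : Type} {N : Bool → V → Finset V} {M : ℕ} {p : V → ℕ → ℝ}
    {Z : Bool → V → Set ℕ} (H : Levels N M p Z) {b m s : ℕ} (hb : 2 ≤ b) (hs : m ≤ b ^ s)
    (hz : ∀ v x, m ≤ x → p v x = 0) (v : V) :
    ∃ (σ : Bool) (a t x : ℕ), t ≤ s ∧ a ∈ Z σ v ∧ a + b ^ (t - 1) ≤ m ∧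
      p v x + p v (x + 1) = 1 ∧ (t = 0 → x = a) ∧
      (t ≠ 0 → a + b ^ (t - 1) ≤ x ∧ x < a + b * b ^ (t - 1)) := by
  obtain ⟨σ, a, x, ha, hax, hp⟩ := H.near v
  have hxm : x < m := by
    by_contra hcon
    rw [hz v x (by omega), hz v (x + 1) (by omega)] at hp
    norm_num at hp
  by_cases hd : x = a
  · refine ⟨σ, a, 0, x, Nat.zero_le _, ha, ?_, hp, fun _ => hd, fun h => absurd rfl h⟩
    simp only [Nat.zero_sub, pow_zero]
    omega
  · have hd0 : x - a ≠ 0 := by omega
    have h1 : b ^ Nat.log b (x - a) ≤ x - a := Nat.pow_log_le_self b hd0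
    have h2 : x - a < b ^ (Nat.log b (x - a) + 1) := Nat.lt_pow_succ_log_self (by omega) _
    have h3 : Nat.log b (x - a) < s := Nat.log_lt_of_lt_pow hd0 (by omega)
    rw [pow_succ, mul_comm] at h2
    refine ⟨σ, a, Nat.log b (x - a) + 1, x, h3, ha, ?_, hp, fun h => absurd h (by omega),
      fun _ => ⟨?_, ?_⟩⟩
    · rw [Nat.add_sub_cancel]
      omega
    · rw [Nat.add_sub_cancel]
      omega
    · rw [Nat.add_sub_cancel]
      omega

theorem stmt_RND (hL : Stmt_LST) : Stmt_RND := by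
  classical
  intro V _ G N hG M p Z H b m s hb hs hM hz
  choose σ a t x ht ha hat hp hx0 hx1 using fun v => vertex_data H hb hs hz v
  let L : V → Finset (Bool × ℕ × ℕ × ℕ) := fun v =>
    {σ v} ×ˢ ({t v} ×ˢ (Ico (a v) (a v + b ^ (t v - 1)) ×ˢ range (b + 2)))
  have hmem : ∀ v (x : Bool × ℕ × ℕ × ℕ), x ∈ L v ↔ x.1 = σ v ∧ x.2.1 = t v ∧
      (a v ≤ x.2.2.1 ∧ x.2.2.1 < a v + b ^ (t v - 1)) ∧ x.2.2.2 < b + 2 := by
    intro v x
    simp only [L, mem_product, mem_singleton, mem_Ico, mem_range]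
  have hcard : ∀ v, (L v).card = b ^ (t v - 1) * (b + 2) := by
    intro v
    simp only [L, card_product, card_singleton, Nat.card_Ico, card_range, one_mul,
      Nat.add_sub_cancel_left]
  have hdis : ∀ u v, ¬ Disjoint (L u) (L v) → σ u = σ v ∧ t u = t v ∧
      a u < a v + b ^ (t v - 1) ∧ a v < a u + b ^ (t v - 1) := by
    intro u v h
    rw [Finset.not_disjoint_iff] at h
    obtain ⟨y, hy, hy'⟩ := h
    rw [hmem] at hy hy'
    have e := hy.2.1.symm.trans hy'.2.1
    rw [e] at hy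
    refine ⟨hy.1.symm.trans hy'.1, e, ?_, ?_⟩
    · exact lt_of_le_of_lt hy.2.2.1.1 hy'.2.2.1.2
    · exact lt_of_le_of_lt hy'.2.2.1.1 hy.2.2.1.2
  have hA1 : ∀ u v, G.Adj u v → ¬ Disjoint (L u) (L v) →
      u ∈ (N (σ v) v).filter (fun u => ¬ Disjoint (L u) (L v)) ∨
      v ∈ (N (σ u) u).filter (fun v => ¬ Disjoint (L v) (L u)) := by
    intro u v huv hd
    rcases hG u v huv (σ v) with h | h
    · exact Or.inl (mem_filter.2 ⟨h, hd⟩)
    · refine Or.inr (mem_filter.2 ⟨?_, fun h' => hd h'.symm⟩)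
      rw [(hdis u v hd).1]
      exact h
  have hA2 : ∀ v, 2 * ((N (σ v) v).filter (fun u => ¬ Disjoint (L u) (L v))).card <
      (L v).card := by
    intro v
    rw [hcard]
    have hX1 : 1 ≤ b ^ (t v - 1) := Nat.one_le_pow _ _ (by omega)
    have hXm := hat v
    have hwin : a v + (b + 1) * b ^ (t v - 1) ≤ M := by
      have h1 : b * b ^ (t v - 1) ≤ b * m := Nat.mul_le_mul_left b (by omega)
      have h2 : (b + 1) * b ^ (t v - 1) = b * b ^ (t v - 1) + b ^ (t v - 1) := by ring
      have h3 : (b + 2) * m = b * m + 2 * m := by ring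
      omega
    have hab := H.above (σ v) v (a v) (ha v) (a v + (b + 1) * b ^ (t v - 1))
      (Nat.le_add_right _ _) hwin
    have hkey : ∀ u ∈ (N (σ v) v).filter (fun u => ¬ Disjoint (L u) (L v)),
        (1 : ℝ) ≤ ∑ y ∈ Ico (a v) (a v + (b + 1) * b ^ (t v - 1)), p u y := by
      intro u hu
      rw [mem_filter] at hu
      obtain ⟨-, e2, e3, e4⟩ := hdis u v hu.2
      have hin : a v ≤ x u ∧ x u + 1 < a v + (b + 1) * b ^ (t v - 1) := by
        have h2 : (b + 1) * b ^ (t v - 1) = b * b ^ (t v - 1) + b ^ (t v - 1) := by ring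
        have h4 : 2 * b ^ (t v - 1) ≤ b * b ^ (t v - 1) := Nat.mul_le_mul_right _ hb
        by_cases h0 : t v = 0
        · have hx := hx0 u (e2.trans h0)
          rw [h0] at e3 e4 h4 h2 ⊢
          simp only [Nat.zero_sub, pow_zero, mul_one] at e3 e4 h4 ⊢
          omega
        · have hx := hx1 u (by rw [e2]; exact h0)
          rw [e2] at hx
          generalize b * b ^ (t v - 1) = Y at hx h2 h4
          omega
      have hsub : ({x u, x u + 1} : Finset ℕ) ⊆
          Ico (a v) (a v + (b + 1) * b ^ (t v - 1)) := by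
        intro y hy
        rw [mem_insert, mem_singleton] at hy
        rw [mem_Ico]
        omega
      have hsum : ∑ y ∈ ({x u, x u + 1} : Finset ℕ), p u y = 1 := by
        rw [Finset.sum_pair (by omega)]
        exact hp u
      rw [← hsum]
      exact Finset.sum_le_sum_of_subset_of_nonneg hsub fun y _ _ => H.nonneg u y
    have h1 : (((N (σ v) v).filter (fun u => ¬ Disjoint (L u) (L v))).card : ℝ) * 1 ≤
        ∑ u ∈ (N (σ v) v).filter (fun u => ¬ Disjoint (L u) (L v)),
          ∑ y ∈ Ico (a v) (a v + (b + 1) * b ^ (t v - 1)), p u y := by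
      rw [← nsmul_eq_mul]
      exact Finset.card_nsmul_le_sum _ _ _ hkey
    have h2 : ∑ u ∈ (N (σ v) v).filter (fun u => ¬ Disjoint (L u) (L v)),
          ∑ y ∈ Ico (a v) (a v + (b + 1) * b ^ (t v - 1)), p u y ≤
        ∑ u ∈ N (σ v) v, ∑ y ∈ Ico (a v) (a v + (b + 1) * b ^ (t v - 1)), p u y :=
      Finset.sum_le_sum_of_subset_of_nonneg (filter_subset _ _) fun u _ _ =>
        Finset.sum_nonneg fun y _ => H.nonneg u y
    have h3 := (h1.trans h2).trans hab
    generalize ((N (σ v) v).filter (fun u => ¬ Disjoint (L u) (L v))).card = c at h3 ⊢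
    generalize b ^ (t v - 1) = X at hX1 h3 ⊢
    push_cast at h3
    rw [add_sub_cancel_left, mul_one] at h3
    have h4 : (2 : ℝ) * c ≤ (b + 1) * X := by linarith
    have h5 : 2 * c ≤ (b + 1) * X := by exact_mod_cast h4
    have h6 : (b + 1) * X + X = X * (b + 2) := by ring
    omega
  obtain ⟨c, hc, hc2⟩ := hL V (Bool × ℕ × ℕ × ℕ) G L _ hA1 hA2
  let S : Finset (Bool × ℕ × ℕ × ℕ) :=
    univ ×ˢ (range (s + 1) ×ˢ (range m ×ˢ range (b + 2)))
  have hS : ∀ v, c v ∈ S := by
    intro v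
    have h := (hmem v (c v)).1 (hc v)
    simp only [S, mem_product, mem_univ, mem_range, true_and]
    refine ⟨?_, ?_, h.2.2.2⟩
    · have := ht v
      rw [h.2.1]
      omega
    · exact lt_of_lt_of_le h.2.2.1.2 (hat v)
  have hScard : Fintype.card S = 2 * (s + 1) * m * (b + 2) := by
    rw [Fintype.card_coe]
    simp only [S, card_product, card_univ, Fintype.card_bool, card_range]
    ring
  rw [← hScard]
  exact (SimpleGraph.Coloring.mk (fun v => (⟨c v, hS v⟩ : S)) fun {u v} h heq =>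
    hc2 u v h (congrArg Subtype.val heq)).colorable

end Pool.BU
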